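import Pool.Agent.H57.UGB.Defs
import Pool.Agent.H45.UG.RepCore

/-!
# REP: jet differentials of negative twist as polynomials in the Taylor coefficients
-/

set_option autoImplicit false

open MvPolynomial

namespace Pool.Agent.H57.UGB

open Pool.Agent.H47.KB Pool.Agent.H47.UG

section ff

variable {n d : ℕ} (T : FF d (genK n d)) (k : ℕ)

theorem rep_charZero (n : ℕ) : CharZero (KK n) :=
  charZero_of_injective_algebraMap (R := Cof n) (IsFractionRing.injective (Cof n) (KK n))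

theorem rep_aeval_aK (c : Cof n) : aeval (aK T k) c =
    C (algebraMap (KK n) T.L (algebraMap (Cof n) (KK n) c)) := by
  have h : (aeval (aK T k) : Cof n →ₐ[ℂ] Bk T k).toRingHom =
      (C : T.L →+* Bk T k).comp ((algebraMap (KK n) T.L).comp (algebraMap (Cof n) (KK n))) := by
    refine MvPolynomial.ringHom_ext ?_ ?_
    · intro z
      simp only [AlgHom.toRingHom_eq_coe, RingHom.coe_coe, RingHom.comp_apply]
      rw [← algebraMap_eq (R := ℂ), AlgHom.commutes]
      rfl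
    · intro α
      simp only [AlgHom.toRingHom_eq_coe, RingHom.coe_coe, RingHom.comp_apply, aeval_X]
      rfl
  exact congrArg (fun f : Cof n →+* Bk T k => f c) h

/-- The flat ring. -/
noncomputable def repJ (n k : ℕ) : MvPolynomial (Fin (n + 2) × Fin (k + 1)) (Cof n) →+* JR n k :=
  eval₂Hom (rename Sum.inl : Cof n →ₐ[ℂ] JR n k).toRingHom fun v => X (Sum.inr v)

theorem rep_pt (y : Fin (n + 2) → PowerSeries (Bk T k)) (Q : MvPolynomial (Fin (n + 2) × Fin (k + 1)) (Cof n)) :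
    pt (aK T k) y (repJ n k Q) =
      eval₂ ((C : T.L →+* Bk T k).comp ((algebraMap (KK n) T.L).comp (algebraMap (Cof n) (KK n))))
        (fun v : Fin (n + 2) × Fin (k + 1) => PowerSeries.coeff (v.2 : ℕ) (y v.1)) Q := by
  have h : ((pt (aK T k) y : JR n k →ₐ[ℂ] Bk T k).toRingHom).comp (repJ n k) =
      eval₂Hom ((C : T.L →+* Bk T k).comp ((algebraMap (KK n) T.L).comp (algebraMap (Cof n) (KK n))))
        (fun v : Fin (n + 2) × Fin (k + 1) => PowerSeries.coeff (v.2 : ℕ) (y v.1)) := by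
    refine MvPolynomial.ringHom_ext ?_ ?_
    · intro c
      simp only [RingHom.comp_apply, repJ, eval₂Hom_C, AlgHom.toRingHom_eq_coe, RingHom.coe_coe]
      rw [pt, aeval_rename]
      exact rep_aeval_aK T k c
    · intro v
      simp only [RingHom.comp_apply, repJ, eval₂Hom_X', AlgHom.toRingHom_eq_coe, RingHom.coe_coe]
      rw [pt, aeval_X]
      rfl
  exact congrArg (fun f : MvPolynomial (Fin (n + 2) × Fin (k + 1)) (Cof n) →+* Bk T k => f Q) h

theorem rep_C (c : Cof n) : repJ n k (C c) = rename Sum.inl c := by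
  simp [repJ]

theorem rk_tay (i : Fin (n + 2)) (v : Fin (n + 2) × Fin (k + 1)) :
    rk T k (Pool.Agent.H45.UG.tay T i (v.1, (v.2 : ℕ))) =
      PowerSeries.coeff (v.2 : ℕ) (ser T k (T.x v.1 / T.x i)) := by
  rw [ser, PowerSeries.coeff_mk, Pool.Agent.H45.UG.tay, Algebra.smul_def, map_mul]
  congr 1
  exact (rk T k).commutes _

theorem rep_one (b m : ℕ) (σ : T.BB) (i : Fin (n + 2)) (hσ : σ ∈ T.EE k (-(b : ℤ)) m i) :
    ∃ c : Cof n, c ≠ 0 ∧ ∃ Q : JR n k,
      C (T.x i) ^ b * (aeval (aK T k) c * rk T k σ) =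
        pt (aK T k) (fun j => ser T k (T.x j / T.x i)) Q := by
  have := rep_charZero n
  obtain ⟨c, hc, Q, hQ⟩ := Pool.Agent.H45.UG.mem_EE_clear (R := Cof n) T k (-(b : ℤ)) m i σ hσ
  refine ⟨c, hc, repJ n k Q, ?_⟩
  have h1 := congrArg (rk T k) hQ
  rw [map_mul, map_mul] at h1
  have h2 : rk T k (algebraMap (KK n) T.BB (algebraMap (Cof n) (KK n) c)) = aeval (aK T k) c := by
    rw [rep_aeval_aK]
    exact (rk T k).commutes _
  have h3 : rk T k (C (T.x i ^ (-(b : ℤ)))) = C (T.x i ^ (-(b : ℤ))) := (rk T k).commutes _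
  have h4 : (C (T.x i) : Bk T k) ^ b * C (T.x i ^ (-(b : ℤ))) = 1 := by
    rw [← C_pow, ← C_mul, ← zpow_natCast, ← zpow_add₀ (T.x_ne i), add_neg_cancel, zpow_zero, C_1]
  rw [← h2, h1, h3, ← mul_assoc, h4, one_mul, rep_pt]
  have h5 : rk T k (eval₂ ((algebraMap (KK n) T.BB).comp (algebraMap (Cof n) (KK n)))
      (fun q : Fin (n + 2) × Fin (k + 1) => Pool.Agent.H45.UG.tay T i (q.1, (q.2 : ℕ))) Q) =
      eval₂ (((rk T k : T.BB →ₐ[T.L] Bk T k).toRingHom).comp
        ((algebraMap (KK n) T.BB).comp (algebraMap (Cof n) (KK n))))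
        (fun q : Fin (n + 2) × Fin (k + 1) => rk T k (Pool.Agent.H45.UG.tay T i (q.1, (q.2 : ℕ)))) Q :=
    (eval₂_comp_left (rk T k : T.BB →ₐ[T.L] Bk T k).toRingHom _ _ Q)
  rw [h5]
  congr 1
  · refine RingHom.ext fun c => ?_
    exact (rk T k).commutes _
  · funext v
    exact rk_tay T k i v

/-- REP -/
theorem rep (b m : ℕ) (σ : T.BB) (hσ : σ ∈ FF.H0 (T.EE k (-(b : ℤ)) m)) :
    ∃ c : Cof n, c ≠ 0 ∧ ∀ i, ∃ Q : JR n k,
      C (T.x i) ^ b * (aeval (aK T k) c * rk T k σ) =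
        pt (aK T k) (fun j => ser T k (T.x j / T.x i)) Q := by
  classical
  have h : ∀ i, σ ∈ T.EE k (-(b : ℤ)) m i := fun i => (Submodule.mem_iInf _).1 hσ i
  choose c hc Q hQ using fun i => rep_one T k b m σ i (h i)
  refine ⟨∏ i, c i, Finset.prod_ne_zero_iff.2 fun i _ => hc i, fun i =>
    ⟨rename Sum.inl (∏ j ∈ Finset.univ.erase i, c j) * Q i, ?_⟩⟩
  rw [map_mul, ← hQ i, ← Finset.mul_prod_erase Finset.univ c (Finset.mem_univ i), map_mul]
  have h1 : pt (aK T k) (fun j => ser T k (T.x j / T.x i))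
      (rename Sum.inl (∏ j ∈ Finset.univ.erase i, c j) : JR n k) =
      aeval (aK T k) (∏ j ∈ Finset.univ.erase i, c j) := by
    rw [pt, aeval_rename]
    rfl
  rw [h1]
  ring

end ff

end Pool.Agent.H57.UGB
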